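import Mathlib

set_option autoImplicit false

namespace Pool.Agent.Results.MP_fc29f1_nt.FailsAtSeven

open Finset

/-- The generalized binomial coefficient `a (a-1) ... (a-k+1) / k!` of a rational number `a`. -/
def gbin (a : ℚ) (k : ℕ) : ℚ := (∏ i ∈ range k, (a - i)) / (k.factorial : ℚ)

/-- The sum `S_2 = ∑_{k=0}^{p-1} C(-1/2,k) C(-1/3,k) / (-27)^k`. -/
def S2 (p : ℕ) : ℚ := ∑ k ∈ range p, gbin (-1 / 2) k * gbin (-1 / 3) k / (-27) ^ k

/-- Two rationals are congruent modulo `p^m` when their difference is `p^m` times a rational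
number with denominator prime to `p`. -/
def Cong (p m : ℕ) (x y : ℚ) : Prop := ¬ p ∣ ((x - y) / (p : ℚ) ^ m).den

/-- Part (a) of the question for the sum `S_2`: if `p ≡ 1 (mod 3)` and `p = A^2 + 3 B^2` with
`3 ∣ A - 1`, then `S_2 ≡ 2 A - p/(2 A) (mod p^2)`. -/
def PartA2 (p : ℕ) : Prop :=
  ∀ A B : ℤ, p % 3 = 1 → (p : ℤ) = A ^ 2 + 3 * B ^ 2 → 3 ∣ A - 1 →
    Cong p 2 (S2 p) (2 * (A : ℚ) - (p : ℚ) / (2 * (A : ℚ)))

theorem fail7 : ¬ PartA2 7 := by
  intro h
  have h' := h (-2) 1 (by norm_num) (by norm_num) (by norm_num)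
  revert h'
  unfold Cong S2 gbin
  simp only [sum_range_succ, sum_range_zero, prod_range_succ, prod_range_zero, Nat.factorial]
  norm_num

/-- Part (a) of the question fails for the prime `p = 7` (where `7 = (-2)^2 + 3 * 1^2`): the
congruence for `S_2` does not hold modulo `7^2`. Hence it does not hold for every prime `p > 5`. -/
theorem result : ¬ (∀ p : ℕ, p.Prime → 5 < p → PartA2 p) ∧ ¬ PartA2 7 :=
  ⟨fun h => fail7 (h 7 (by norm_num) (by norm_num)), fail7⟩

end Pool.Agent.Results.MP_fc29f1_nt.FailsAtSeven
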